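import Pool.Agent.AlefG.Edge
import Pool.Agent.AlefS.Grid

/-!
# Monohedral tilings come from exact covers: generic polyomino
-/

set_option autoImplicit false

namespace AlefG

open TilDich
open AlefS (rt gb mul Pl act Mono co cellF usq gz cell_nonempty tile_usq sq_usq ext2 gz0 gz1
  sq_inj isom_sq fl_cell rows body_usq usq_eq cell_square sq_disj sq_int_nonempty sq_not_mem)

variable (F : List (ℤ × ℤ))

/-- as `rows`, and the grid squares of the tiling form full rows -/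
theorem rows' {V : Set (Eu 2)} (hV : HO cellF V) (h0 : gz (0, 0) ∈ V) : (∀ c, gz c ∈ V) ∨
    ∃ (d : Fin 4) (z : ℤ × ℤ), (∀ c, co d (c - z) = 0 → gz c ∈ V) ∧
      (∀ c, co d (c - z) = 1 → gz c ∉ V) ∧
      ∀ c c', co d (c' - z) = co d (c - z) → gz c ∈ V → gz c' ∈ V := by
  have key : ∀ a b, gz (a, b) ∈ V ↔ AlefS.LI V 0 1 b ∧ AlefS.LI V 1 0 a := fun a b =>
    AlefS.mem_iff hV (a, b)
  rcases rows hV h0 with hr | ⟨d, z, h1, h2⟩
  · exact Or.inl hr
  · right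
    refine ⟨d, z, h1, h2, ?_⟩
    obtain ⟨z1, z2⟩ := z
    rintro ⟨a, b⟩ ⟨a', b'⟩ hcc hm
    have m1 := (key a b).1 hm
    fin_cases d
    · have e1 : b' - z2 = b - z2 := hcc
      have e2 : b' = b := by omega
      have m2 := (key a' z2).1 (h1 (a', z2) (show z2 - z2 = 0 by omega))
      rw [key, e2]
      exact ⟨m1.1, m2.2⟩
    · have e1 : -(a' - z1) = -(a - z1) := hcc
      have e2 : a' = a := by omega
      have m2 := (key z1 b').1 (h1 (z1, b') (show -(z1 - z1) = 0 by omega))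
      rw [key, e2]
      exact ⟨m2.1, m1.2⟩
    · have e1 : -(b' - z2) = -(b - z2) := hcc
      have e2 : b' = b := by omega
      have m2 := (key a' z2).1 (h1 (a', z2) (show -(z2 - z2) = 0 by omega))
      rw [key, e2]
      exact ⟨m1.1, m2.2⟩
    · have e1 : a' - z1 = a - z1 := hcc
      have e2 : a' = a := by omega
      have m2 := (key z1 b').1 (h1 (z1, b') (show z1 - z1 = 0 by omega))
      rw [key, e2]
      exact ⟨m2.1, m1.2⟩

/-- a grid square inside a tile is one of its squares -/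
theorem sub_iff (q : Pl) (c : ℤ × ℤ) : AlefS.sq c ⊆ TT F q ↔ c - q.2 ∈ Fb F q.1 := by
  constructor
  · intro h
    obtain ⟨x, hx⟩ := sq_int_nonempty c
    have h1 := h (interior_subset hx)
    rw [TT, Set.mem_iUnion₂] at h1
    obtain ⟨f, hf, hxf⟩ := h1
    by_contra hcon
    refine sq_not_mem ?_ hx hxf
    intro h2
    apply hcon
    rw [h2]
    simpa using hf
  · intro h x hx
    rw [TT, Set.mem_iUnion₂]
    refine ⟨c - q.2, h, ?_⟩
    have : q.2 + (c - q.2) = c := by abel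
    rw [this]; exact hx

theorem TT_inj (hA : Asym F) {q q' : Pl} (h : TT F q = TT F q') : q = q' := by
  obtain ⟨h1, h2⟩ := hA q.1 q'.1 q.2 q'.2 fun c => by
    rw [← sub_iff F q c, ← sub_iff F q' c, h]
  exact Prod.ext h1 h2

theorem T0_eq : T0 F = ⋃ f ∈ F, AlefS.sq f := by
  have h1 : Fb F (0 : Fin 8) = F := by
    show F.map (gb 0) = F
    have : gb 0 = id := by
      funext p
      simp [gb]
    rw [this, List.map_id]
  show (⋃ f ∈ Fb F (0 : Fin 8), AlefS.sq ((0, 0) + f)) = _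
  rw [h1]
  refine Set.iUnion₂_congr fun f _ => ?_
  have : ((0, 0) : ℤ × ℤ) + f = f := zero_add f
  rw [this]

theorem disc_of_real (hF : F ≠ []) (hAs : Asym F) (hE : EdgeOK F) {𝒯 : Set (Set (Eu 2))}
    (h : Mono (T0 F) 𝒯) :
    ∃ (g : Eu 2 ≃ᵢ Eu 2) (P : Set Pl), Tiling F P ∧ (fun A => g '' A) '' 𝒯 = realize F P := by
  obtain ⟨f0, hf0⟩ := List.exists_mem_of_ne_nil F hF
  obtain ⟨h1, h2, h3⟩ := h
  have hex : ∀ A : Set (Eu 2), ∃ e : Eu 2 ≃ᵢ Eu 2, A ∈ 𝒯 → A = e '' T0 F := by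
    intro A
    by_cases hA : A ∈ 𝒯
    · obtain ⟨e, he⟩ := h1 A hA
      exact ⟨e, fun _ => he⟩
    · exact ⟨IsometryEquiv.refl _, fun h => absurd h hA⟩
  choose e he using hex
  have hcup : ∀ A ∈ 𝒯, A = ⋃ f ∈ F, e A '' AlefS.sq f := by
    intro A hA
    conv_lhs => rw [he A hA, T0_eq F, Set.image_iUnion₂]
  -- the tiling by squares
  set 𝒮 : Set (Set (Eu 2)) := {S | ∃ A ∈ 𝒯, ∃ f ∈ F, S = e A '' AlefS.sq f} with h𝒮
  have hS : IsMono cellF 𝒮 := by
    refine ⟨?_, ?_, ?_⟩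
    · rintro _ ⟨A, hA, f, hf, rfl⟩
      refine ⟨(IsometryEquiv.addRight (gz f)).trans (e A), ?_⟩
      rw [sq_usq, usq_eq, Set.image_image]
      rfl
    · rw [Set.eq_univ_iff_forall]
      intro x
      have hx : x ∈ ⋃₀ 𝒯 := by rw [h2]; trivial
      obtain ⟨A, hA, hxA⟩ := hx
      rw [hcup A hA, Set.mem_iUnion₂] at hxA
      obtain ⟨f, hf, hxf⟩ := hxA
      exact ⟨_, ⟨A, hA, f, hf, rfl⟩, hxf⟩
    · rintro _ ⟨A, hA, f, hf, rfl⟩ _ ⟨B, hB, f', hf', rfl⟩ hne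
      show Disjoint (interior (e A '' AlefS.sq f)) (interior (e B '' AlefS.sq f'))
      have hsub : ∀ A ∈ 𝒯, ∀ f ∈ F, interior (e A '' AlefS.sq f) ⊆ interior A := by
        intro A hA f hf
        refine interior_mono ?_
        intro x hx
        rw [hcup A hA, Set.mem_iUnion₂]
        exact ⟨f, hf, hx⟩
      by_cases hAB : A = B
      · subst hAB
        have hff : f ≠ f' := fun h => hne (by rw [h])
        have e1 : ∀ S : Set (Eu 2), interior (e A '' S) = e A '' interior S := fun S =>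
          ((e A).toHomeomorph.image_interior S).symm
        rw [e1, e1]
        exact (Set.disjoint_image_iff (e A).injective).mpr (sq_disj hff)
      · exact (h3 hA hB hAB).mono (hsub A hA f hf) (hsub B hB f' hf')
  -- a tile
  have hne : ∃ A, A ∈ 𝒯 := by
    have hx : (0 : Eu 2) ∈ ⋃₀ 𝒯 := by rw [h2]; trivial
    obtain ⟨A, hA, _⟩ := hx
    exact ⟨A, hA⟩
  obtain ⟨A0, hA0⟩ := hne
  set g : Eu 2 ≃ᵢ Eu 2 := (e A0).symm.trans (IsometryEquiv.addRight (-gz f0)) with hg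
  have hS' := hS.image g
  set 𝒮' : Set (Set (Eu 2)) := (fun A => g '' A) '' 𝒮 with h𝒮'
  have hgz0 : gz (0, 0) = 0 := by
    apply ext2
    · rw [gz0]; simp
    · rw [gz1]; simp
  have hm0 : AlefS.sq (0, 0) ∈ 𝒮' := by
    refine ⟨e A0 '' AlefS.sq f0, ⟨A0, hA0, f0, hf0, rfl⟩, ?_⟩
    show g '' (e A0 '' AlefS.sq f0) = AlefS.sq (0, 0)
    have e2 : ∀ x : Eu 2, g (e A0 x) = x + -gz f0 := by
      intro x
      show (e A0).symm (e A0 x) + -gz f0 = x + -gz f0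
      rw [IsometryEquiv.symm_apply_apply]
    rw [Set.image_image]
    simp only [e2]
    rw [sq_usq f0, usq_eq, Set.image_image, sq_usq (0, 0), hgz0, usq_eq]
    refine Set.image_congr fun x _ => ?_
    rw [add_neg_cancel_right, add_zero]
  have htr : IsTr cellF 𝒮' := by
    refine ⟨?_, hS'.2.1, hS'.2.2⟩
    intro B hB
    refine square_core cell_nonempty cell_square hS' ?_ B hB
    rw [body_usq, ← hgz0]
    exact hm0
  obtain ⟨V, hVdef⟩ : ∃ V : Set (Eu 2), V = {v | tile cellF v ∈ 𝒮'} := ⟨_, rfl⟩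
  have hV : HO cellF V := by
    rw [hVdef]
    exact ho_of_tr cell_nonempty htr
  have hmV : ∀ v, v ∈ V ↔ usq v ∈ 𝒮' := by
    intro v
    rw [hVdef, ← tile_usq]
    rfl
  have hV0 : gz (0, 0) ∈ V := (hmV _).2 hm0
  -- the placements in grid position
  set Q : Set Pl := {q | ∃ A ∈ 𝒯, (∀ p : ℤ × ℤ, g '' (e A '' AlefS.sq p) = AlefS.sq (gb q.1 p + q.2)) ∧
    g '' A = TT F q} with hQ
  have hpl : ∀ A ∈ 𝒯, ∀ (f c : ℤ × ℤ), g '' (e A '' AlefS.sq f) = AlefS.sq c →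
      ∃ q : Pl, (∀ p : ℤ × ℤ, g '' (e A '' AlefS.sq p) = AlefS.sq (gb q.1 p + q.2)) ∧ g '' A = TT F q := by
    intro A hA f c hfc
    obtain ⟨k, z, hkz⟩ := isom_sq ((e A).trans g) (c := f) (d := c) (by
      rw [← hfc, Set.image_image]
      rfl)
    have hk : ∀ p : ℤ × ℤ, g '' (e A '' AlefS.sq p) = AlefS.sq (gb k p + z) := by
      intro p
      rw [← hkz p, Set.image_image]
      rfl
    refine ⟨(k, z), hk, ?_⟩
    conv_lhs => rw [hcup A hA, Set.image_iUnion₂]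
    show (⋃ f ∈ F, g '' (e A '' AlefS.sq f)) = ⋃ f ∈ Fb F k, AlefS.sq (z + f)
    ext x
    simp only [Set.mem_iUnion, Fb, List.mem_map]
    constructor
    · rintro ⟨f, hf, hx⟩
      refine ⟨gb k f, ⟨f, hf, rfl⟩, ?_⟩
      rw [hk f] at hx
      rw [add_comm]
      exact hx
    · rintro ⟨_, ⟨f, hf, rfl⟩, hx⟩
      refine ⟨f, hf, ?_⟩
      rw [hk f, add_comm]
      exact hx
  have hC : ∀ c : ℤ × ℤ, gz c ∈ V → ∃ q ∈ Q, c - q.2 ∈ Fb F q.1 := by
    intro c hc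
    rw [hmV] at hc
    obtain ⟨B, ⟨A, hA, f, hf, rfl⟩, hB⟩ := hc
    have hB' : g '' (e A '' AlefS.sq f) = AlefS.sq c := hB
    obtain ⟨q, hq1, hq2⟩ := hpl A hA f c hB'
    refine ⟨q, ⟨A, hA, hq1, hq2⟩, ?_⟩
    have hc : c = gb q.1 f + q.2 := by
      apply sq_inj
      rw [← hq1 f]
      exact hB'.symm
    rw [hc, add_sub_cancel_right]
    exact List.mem_map.mpr ⟨f, hf, rfl⟩
  have hM : ∀ q ∈ Q, ∀ c : ℤ × ℤ, c - q.2 ∈ Fb F q.1 → gz c ∈ V := by
    rintro q ⟨A, hA, hq1, _⟩ c hc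
    obtain ⟨f, hf, hfc⟩ := List.mem_map.1 hc
    have hc' : c = gb q.1 f + q.2 := by rw [hfc, sub_add_cancel]
    rw [hmV]
    show AlefS.sq c ∈ 𝒮'
    rw [hc', ← hq1 f]
    exact ⟨_, ⟨A, hA, f, hf, rfl⟩, rfl⟩
  have hD : ∀ q ∈ Q, ∀ q' ∈ Q, ∀ c : ℤ × ℤ, c - q.2 ∈ Fb F q.1 → c - q'.2 ∈ Fb F q'.1 → q = q' := by
    rintro q ⟨A, hA, _, hq2⟩ q' ⟨A', hA', _, hq2'⟩ c hc hc'
    have hcA := (sub_iff F q c).mpr hc
    have hcA' := (sub_iff F q' c).mpr hc'
    have hAA : A' = A := by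
      by_contra hne
      have hd := h3 hA' hA hne
      obtain ⟨x, hx⟩ := sq_int_nonempty c
      have e1 : ∀ S : Set (Eu 2), interior (g '' S) = g '' interior S := fun S =>
        (g.toHomeomorph.image_interior S).symm
      have x1 : x ∈ interior (g '' A') := by
        rw [hq2']; exact interior_mono hcA' hx
      have x2 : x ∈ interior (g '' A) := by
        rw [hq2]; exact interior_mono hcA hx
      rw [e1] at x1 x2
      exact Set.disjoint_left.mp ((Set.disjoint_image_iff g.injective).mpr hd) x1 x2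
    apply TT_inj F hAs
    rw [← hq2, ← hq2', hAA]
  -- all grid squares belong to the tiling
  have hall : ∀ c, gz c ∈ V := by
    rcases rows' hV hV0 with hr | ⟨d, z, hr1, hr2, hr3⟩
    · exact hr
    · exfalso
      refine hE d Q z hD ?_ ?_ ?_
      · intro c hc
        exact hC c (hr1 c hc)
      · intro q hq c hc c' hcc
        exact hC c' (hr3 c c' hcc (hM q hq c hc))
      · intro q hq c hc h1
        exact hr2 c h1 (hM q hq c hc)
  have hVgz : ∀ v ∈ V, ∃ c, v = gz c := by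
    intro v hv
    refine ⟨(⌊v 0⌋, ⌊v 1⌋), ?_⟩
    obtain ⟨w, _, hu⟩ := hV v
    refine (hu v ⟨hv, (fl_cell (show (0 : Fin 2) ≠ 1 by decide) _ _).2
      ⟨⟨le_refl _, by linarith⟩, le_refl _, by linarith⟩⟩).trans
      (hu _ ⟨hall (⌊v 0⌋, ⌊v 1⌋), ?_⟩).symm
    rw [fl_cell (show (0 : Fin 2) ≠ 1 by decide), gz0, gz1]
    exact ⟨⟨Int.floor_le _, Int.lt_floor_add_one _⟩, Int.floor_le _, Int.lt_floor_add_one _⟩
  refine ⟨g, Q, ?_, ?_⟩
  · intro c
    obtain ⟨q, hq, hc⟩ := hC c (hall c)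
    refine ⟨q, ⟨hq, hc⟩, ?_⟩
    rintro q' ⟨hq', hc'⟩
    exact hD q' hq' q hq c hc' hc
  · apply Set.Subset.antisymm
    · rintro _ ⟨A, hA, rfl⟩
      have hmem : g '' (e A '' AlefS.sq f0) ∈ 𝒮' :=
        ⟨_, ⟨A, hA, f0, hf0, rfl⟩, rfl⟩
      obtain ⟨v, hv⟩ := htr.1 _ hmem
      rw [← usq_eq] at hv
      obtain ⟨c, hc⟩ := hVgz v ((hmV v).2 (by rw [← hv]; exact hmem))
      obtain ⟨q, hq1, hq2⟩ := hpl A hA f0 c (by rw [hv, hc, sq_usq])
      exact ⟨q, ⟨A, hA, hq1, hq2⟩, hq2.symm⟩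
    · rintro _ ⟨q, ⟨A, hA, _, hq2⟩, rfl⟩
      exact ⟨A, hA, hq2⟩

end AlefG
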