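import Pool.Agent.AlefS.Defs

/-!
# Polyominoes with countably many tilings: generic definitions

`F` is the list of the lower left corners of the squares of the tile.
-/

set_option autoImplicit false

namespace AlefG

open TilDich
open AlefS (rt gb mul Pl act sq Mono)

variable (F : List (ℤ × ℤ))

/-- the eight images of the tile -/
def Fb (g : Fin 8) : List (ℤ × ℤ) := F.map (gb g)

/-- exact covers of the grid by images of the tile -/
def Tiling (P : Set Pl) : Prop := ∀ c : ℤ × ℤ, ∃! q : Pl, q ∈ P ∧ c - q.2 ∈ Fb F q.1

/-- the tile of a placement: union of squares -/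
def TT (q : Pl) : Set (Eu 2) := ⋃ f ∈ Fb F q.1, sq (q.2 + f)

/-- the tiling of the plane of an exact cover -/
def realize (P : Set Pl) : Set (Set (Eu 2)) := TT F '' P

/-- the prototile -/
def T0 : Set (Eu 2) := TT F (0, (0, 0))

/-- the images of the tile are different -/
def Asym : Prop := ∀ (k k' : Fin 8) (z z' : ℤ × ℤ),
  (∀ c : ℤ × ℤ, c - z ∈ Fb F k ↔ c - z' ∈ Fb F k') → k = k' ∧ z = z'

end AlefG
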