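import Pool.Agent.AlefG.Defs
import Pool.Agent.AlefS.Edge

/-!
# No tiling with a straight boundary line: generic certificate
-/

set_option autoImplicit false

namespace AlefG

open AlefS (rt gb Pl co)

variable (F : List (ℤ × ℤ))

/-- discrete condition: no family of disjoint placements whose union consists of full rows (columns)
of cells, contains one row and avoids the next one -/
def EdgeOK : Prop := ∀ (d : Fin 4) (Q : Set Pl) (z : ℤ × ℤ),
    (∀ q ∈ Q, ∀ q' ∈ Q, ∀ c : ℤ × ℤ, c - q.2 ∈ Fb F q.1 → c - q'.2 ∈ Fb F q'.1 → q = q') →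
    (∀ c : ℤ × ℤ, co d (c - z) = 0 → ∃ q ∈ Q, c - q.2 ∈ Fb F q.1) →
    (∀ q ∈ Q, ∀ c : ℤ × ℤ, c - q.2 ∈ Fb F q.1 → ∀ c' : ℤ × ℤ, co d (c' - z) = co d (c - z) →
      ∃ q' ∈ Q, c' - q'.2 ∈ Fb F q'.1) →
    (∀ q ∈ Q, ∀ c : ℤ × ℤ, c - q.2 ∈ Fb F q.1 → co d (c - z) ≠ 1) → False

/-- placements which cover `t` and avoid the row `co d = 1` -/
def cs (d : Fin 4) (t : ℤ × ℤ) : List Pl :=
  (List.finRange 8).flatMap fun g => ((Fb F g).map fun f => (g, t - f)).filter
    fun q => (Fb F q.1).all fun f => decide (co d (q.2 + f) ≠ 1)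

/-- disjointness of placements -/
def dis (q q' : Pl) : Bool := (Fb F q.1).all fun f => decide (q.2 + f - q'.2 ∉ Fb F q'.1)

/-- search for a covering of the cells of the list; a cell is used if its row is the row `0` or
meets a placement which is already there -/
def go (d : Fin 4) : List (ℤ × ℤ) → List Pl → Bool
  | [], _ => false
  | t :: ts, ps =>
    if ps.any (fun p => decide (t - p.2 ∈ Fb F p.1)) then go d ts ps
    else if decide (co d t = 0) ||
        ps.any (fun p => (Fb F p.1).any fun f => decide (co d (p.2 + f) = co d t)) then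
      (cs F d t).all fun q => ps.any (fun p => !dis F p q) || go d ts (q :: ps)
    else go d ts ps

variable {F}

theorem go_sound (d : Fin 4) (Q : Set Pl)
    (hD : ∀ q ∈ Q, ∀ q' ∈ Q, ∀ c : ℤ × ℤ, c - q.2 ∈ Fb F q.1 → c - q'.2 ∈ Fb F q'.1 → q = q')
    (hC : ∀ c : ℤ × ℤ, co d c = 0 → ∃ q ∈ Q, c - q.2 ∈ Fb F q.1)
    (hR : ∀ q ∈ Q, ∀ c : ℤ × ℤ, c - q.2 ∈ Fb F q.1 → ∀ c' : ℤ × ℤ, co d c' = co d c →
      ∃ q' ∈ Q, c' - q'.2 ∈ Fb F q'.1)
    (hM : ∀ q ∈ Q, ∀ f ∈ Fb F q.1, co d (q.2 + f) ≠ 1) :
    ∀ (ts : List (ℤ × ℤ)) (ps : List Pl), (∀ p ∈ ps, p ∈ Q) → go F d ts ps = true → False := by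
  intro ts
  induction ts with
  | nil =>
    intro ps _ h
    exact Bool.false_ne_true h
  | cons t ts ih =>
    intro ps hps h
    unfold go at h
    split_ifs at h with hc ha
    · exact ih ps hps h
    · have hqt : ∃ q ∈ Q, t - q.2 ∈ Fb F q.1 := by
        rw [Bool.or_eq_true] at ha
        rcases ha with ha | ha
        · exact hC t (of_decide_eq_true ha)
        · rw [List.any_eq_true] at ha
          obtain ⟨p, hp, hpa⟩ := ha
          rw [List.any_eq_true] at hpa
          obtain ⟨f, hf, hfe⟩ := hpa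
          have hfe' := of_decide_eq_true hfe
          refine hR p (hps p hp) (p.2 + f) ?_ t hfe'.symm
          rw [add_sub_cancel_left]
          exact hf
      obtain ⟨q, hq, hqt⟩ := hqt
      rw [List.all_eq_true] at h
      have hm : q ∈ cs F d t := by
        unfold cs
        rw [List.mem_flatMap]
        refine ⟨q.1, List.mem_finRange _, ?_⟩
        rw [List.mem_filter]
        refine ⟨List.mem_map.2 ⟨t - q.2, hqt, ?_⟩, ?_⟩
        · rw [sub_sub_cancel]
        · rw [List.all_eq_true]
          intro f hf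
          exact decide_eq_true (hM q hq f hf)
      have h1 := h q hm
      rw [Bool.or_eq_true] at h1
      rcases h1 with h1 | h1
      · rw [List.any_eq_true] at h1
        obtain ⟨p, hp, hpq⟩ := h1
        have h2 : dis F p q = false := by
          simpa using hpq
        unfold dis at h2
        rw [List.all_eq_false] at h2
        obtain ⟨f, hf, hff⟩ := h2
        have h3 : p.2 + f - q.2 ∈ Fb F q.1 := by
          simpa using hff
        have h4 : p = q := hD p (hps p hp) q hq (p.2 + f) (by rw [add_sub_cancel_left]; exact hf) h3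
        apply hc
        rw [List.any_eq_true]
        exact ⟨p, hp, decide_eq_true (by rw [h4]; exact hqt)⟩
      · refine ih (q :: ps) ?_ h1
        intro p hp
        rcases List.mem_cons.1 hp with rfl | hp
        · exact hq
        · exact hps p hp
    · exact ih ps hps h

/-- a certificate for the discrete condition -/
theorem edgeOK_of_go (ts : Fin 4 → List (ℤ × ℤ)) (h : ∀ d : Fin 4, go F d (ts d) [] = true) :
    EdgeOK F := by
  intro d Q z hD hC hR hM
  have e1 : ∀ (q : Pl) (c : ℤ × ℤ), c + z - (q.2 + z) = c - q.2 := by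
    intro q c
    rw [add_sub_add_right_eq_sub]
  refine go_sound d {q | (q.1, q.2 + z) ∈ Q} ?_ ?_ ?_ ?_ (ts d) [] ?_ (h d)
  · intro q hq q' hq' c hc hc'
    have h := hD _ hq _ hq' (c + z) (by
      show c + z - (q.2 + z) ∈ Fb F q.1
      rw [e1]
      exact hc) (by
      show c + z - (q'.2 + z) ∈ Fb F q'.1
      rw [e1]
      exact hc')
    obtain ⟨h1, h2⟩ := Prod.mk.inj h
    exact Prod.ext h1 (add_right_cancel h2)
  · intro c h0
    obtain ⟨q, hq, hc⟩ := hC (c + z) (by rw [add_sub_cancel_right]; exact h0)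
    refine ⟨(q.1, q.2 - z), ?_, ?_⟩
    · show (q.1, q.2 - z + z) ∈ Q
      rw [sub_add_cancel]
      exact hq
    · show c - (q.2 - z) ∈ Fb F q.1
      rw [sub_sub_eq_add_sub]
      exact hc
  · intro q hq c hc c' hcc
    obtain ⟨q', hq', hc'⟩ := hR _ hq (c + z) (by
      show c + z - (q.2 + z) ∈ Fb F q.1
      rw [e1]
      exact hc) (c' + z) (by rw [add_sub_cancel_right, add_sub_cancel_right]; exact hcc)
    refine ⟨(q'.1, q'.2 - z), ?_, ?_⟩
    · show (q'.1, q'.2 - z + z) ∈ Q
      rw [sub_add_cancel]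
      exact hq'
    · show c' - (q'.2 - z) ∈ Fb F q'.1
      rw [sub_sub_eq_add_sub]
      exact hc'
  · intro q hq f hf
    have h := hM _ hq (q.2 + z + f) (by
      show q.2 + z + f - (q.2 + z) ∈ Fb F q.1
      rw [add_sub_cancel_left]
      exact hf)
    have e : q.2 + z + f - z = q.2 + f := by abel
    rw [e] at h
    exact h
  · intro p hp
    exact absurd hp (List.not_mem_nil)

end AlefG
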