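import Pool.Agent.AlefG.Defs

/-!
# Isometric tilings come from equivalent exact covers (any polyomino)

At the lowest corner of the leftmost column the tile is locally a quadrant; the isometry maps
this point to a vertex of the grid and the axes to the axes.
-/

set_option autoImplicit false

namespace AlefG

open TilDich
open AlefS (rt gb mul Pl act sq Mono)

private noncomputable def cnt (c : ℤ × ℤ) : Eu 2 :=
  WithLp.toLp 2 ![(c.1 : ℝ) + 1 / 2, (c.2 : ℝ) + 1 / 2]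

private noncomputable def vec (c : ℤ × ℤ) : Eu 2 := WithLp.toLp 2 ![(c.1 : ℝ), (c.2 : ℝ)]

private theorem cnt_zero (c : ℤ × ℤ) : cnt c 0 = (c.1 : ℝ) + 1 / 2 := rfl
private theorem cnt_one (c : ℤ × ℤ) : cnt c 1 = (c.2 : ℝ) + 1 / 2 := rfl
private theorem vec_zero (c : ℤ × ℤ) : vec c 0 = (c.1 : ℝ) := rfl
private theorem vec_one (c : ℤ × ℤ) : vec c 1 = (c.2 : ℝ) := rfl

private theorem ext2 {x y : Eu 2} (h0 : x 0 = y 0) (h1 : x 1 = y 1) : x = y := by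
  ext i
  fin_cases i
  · exact h0
  · exact h1

private theorem vec_add (c v : ℤ × ℤ) : vec (c + v) = vec c + vec v := by
  apply ext2
  · show ((c.1 + v.1 : ℤ) : ℝ) = (c.1 : ℝ) + (v.1 : ℝ)
    push_cast
    ring
  · show ((c.2 + v.2 : ℤ) : ℝ) = (c.2 : ℝ) + (v.2 : ℝ)
    push_cast
    ring

private theorem cnt_eq (c : ℤ × ℤ) : cnt c = vec c + (1 / 2 : ℝ) • vec (1, 1) := by
  apply ext2
  · show (c.1 : ℝ) + 1 / 2 = (c.1 : ℝ) + 1 / 2 * ((1 : ℤ) : ℝ)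
    push_cast
    ring
  · show (c.2 : ℝ) + 1 / 2 = (c.2 : ℝ) + 1 / 2 * ((1 : ℤ) : ℝ)
    push_cast
    ring

private theorem nsq (x : Eu 2) : ‖x‖ ^ 2 = x 0 ^ 2 + x 1 ^ 2 := by
  rw [EuclideanSpace.norm_sq_eq, Fin.sum_univ_two]
  simp [sq_abs]

private theorem rt_add (p q : ℤ × ℤ) : rt (p + q) = rt p + rt q := by
  simp [rt]
  ring

private theorem rt_iter_add (k : ℕ) (p q : ℤ × ℤ) : rt^[k] (p + q) = rt^[k] p + rt^[k] q := by
  induction k with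
  | zero => rfl
  | succ k ih =>
    rw [Function.iterate_succ_apply', Function.iterate_succ_apply', Function.iterate_succ_apply',
      ih, rt_add]

private theorem gb_add (k : Fin 8) (p q : ℤ × ℤ) : gb k (p + q) = gb k p + gb k q := by
  unfold gb
  split_ifs
  · exact rt_iter_add _ _ _
  · exact rt_iter_add _ (p.2, p.1) (q.2, q.1)

private theorem g0 (p : ℤ × ℤ) : gb 0 p = (p.1, p.2) := rfl
private theorem g1 (p : ℤ × ℤ) : gb 1 p = (-p.2, p.1) := rfl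
private theorem g2 (p : ℤ × ℤ) : gb 2 p = (-p.1, -p.2) := rfl
private theorem g3 (p : ℤ × ℤ) : gb 3 p = (p.2, -p.1) := by
  show (-(-p.2), -p.1) = _
  rw [neg_neg]
private theorem g4 (p : ℤ × ℤ) : gb 4 p = (p.2, p.1) := rfl
private theorem g5 (p : ℤ × ℤ) : gb 5 p = (-p.1, p.2) := rfl
private theorem g6 (p : ℤ × ℤ) : gb 6 p = (-p.2, -p.1) := rfl
private theorem g7 (p : ℤ × ℤ) : gb 7 p = (p.1, -p.2) := by
  show (-(-p.1), -p.2) = _
  rw [neg_neg]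

private theorem gb_lin (k : Fin 8) (p : ℤ × ℤ) :
    gb k p = (p.1 * (gb k (1, 0)).1 + p.2 * (gb k (0, 1)).1,
      p.1 * (gb k (1, 0)).2 + p.2 * (gb k (0, 1)).2) := by
  fin_cases k
  · show gb 0 p = (p.1 * (gb 0 (1, 0)).1 + p.2 * (gb 0 (0, 1)).1, p.1 * (gb 0 (1, 0)).2 + p.2 * (gb 0 (0, 1)).2)
    rw [g0, g0, g0]; simp
  · show gb 1 p = (p.1 * (gb 1 (1, 0)).1 + p.2 * (gb 1 (0, 1)).1, p.1 * (gb 1 (1, 0)).2 + p.2 * (gb 1 (0, 1)).2)
    rw [g1, g1, g1]; simp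
  · show gb 2 p = (p.1 * (gb 2 (1, 0)).1 + p.2 * (gb 2 (0, 1)).1, p.1 * (gb 2 (1, 0)).2 + p.2 * (gb 2 (0, 1)).2)
    rw [g2, g2, g2]; simp
  · show gb 3 p = (p.1 * (gb 3 (1, 0)).1 + p.2 * (gb 3 (0, 1)).1, p.1 * (gb 3 (1, 0)).2 + p.2 * (gb 3 (0, 1)).2)
    rw [g3, g3, g3]; simp
  · show gb 4 p = (p.1 * (gb 4 (1, 0)).1 + p.2 * (gb 4 (0, 1)).1, p.1 * (gb 4 (1, 0)).2 + p.2 * (gb 4 (0, 1)).2)
    rw [g4, g4, g4]; simp
  · show gb 5 p = (p.1 * (gb 5 (1, 0)).1 + p.2 * (gb 5 (0, 1)).1, p.1 * (gb 5 (1, 0)).2 + p.2 * (gb 5 (0, 1)).2)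
    rw [g5, g5, g5]; simp
  · show gb 6 p = (p.1 * (gb 6 (1, 0)).1 + p.2 * (gb 6 (0, 1)).1, p.1 * (gb 6 (1, 0)).2 + p.2 * (gb 6 (0, 1)).2)
    rw [g6, g6, g6]; simp
  · show gb 7 p = (p.1 * (gb 7 (1, 0)).1 + p.2 * (gb 7 (0, 1)).1, p.1 * (gb 7 (1, 0)).2 + p.2 * (gb 7 (0, 1)).2)
    rw [g7, g7, g7]; simp

private theorem mul_dec : ∀ k g : Fin 8, gb (mul k g) (1, 0) = gb k (gb g (1, 0)) ∧
    gb (mul k g) (0, 1) = gb k (gb g (0, 1)) := by decide +kernel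

private theorem gb_mul (k g : Fin 8) (p : ℤ × ℤ) : gb (mul k g) p = gb k (gb g p) := by
  have a1 : (gb g p).1 = p.1 * (gb g (1, 0)).1 + p.2 * (gb g (0, 1)).1 :=
    congrArg Prod.fst (gb_lin g p)
  have a2 : (gb g p).2 = p.1 * (gb g (1, 0)).2 + p.2 * (gb g (0, 1)).2 :=
    congrArg Prod.snd (gb_lin g p)
  rw [gb_lin (mul k g) p, (mul_dec k g).1, (mul_dec k g).2, gb_lin k (gb g p), a1, a2,
    gb_lin k (gb g (1, 0)), gb_lin k (gb g (0, 1))]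
  ext
  · simp only
    ring
  · simp only
    ring

private theorem Fb_mul (F : List (ℤ × ℤ)) (k g : Fin 8) : Fb F (mul k g) = (Fb F g).map (gb k) := by
  unfold Fb
  rw [List.map_map]
  apply List.map_congr_left
  intro p _
  exact gb_mul k g p

private theorem gb_inj (k : Fin 8) : Function.Injective (gb k) := by
  have h8 : ∀ k : Fin 8, ∃ k' : Fin 8, mul k' k = 0 := by decide +kernel
  obtain ⟨k', hk'⟩ := h8 k
  intro p q h
  have h1 : gb (mul k' k) p = gb (mul k' k) q := by rw [gb_mul, gb_mul, h]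
  rw [hk', g0, g0] at h1
  exact h1

private theorem half_dec : ∀ k : Fin 8, gb k (1, 1) =
    (1, 1) + ((((gb k (1, 1)).1 - 1) / 2, ((gb k (1, 1)).2 - 1) / 2) +
      (((gb k (1, 1)).1 - 1) / 2, ((gb k (1, 1)).2 - 1) / 2)) := by decide +kernel

private theorem mem_TT {F : List (ℤ × ℤ)} {q : Pl} {x : Eu 2} :
    x ∈ TT F q ↔ ∃ f ∈ Fb F q.1, x ∈ sq (q.2 + f) := by
  simp only [TT, Set.mem_iUnion, exists_prop]

/-- the centre of a cell is in the tile if and only if the cell is -/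
private theorem cnt_mem {F : List (ℤ × ℤ)} {q : Pl} {c : ℤ × ℤ} :
    cnt c ∈ TT F q ↔ c - q.2 ∈ Fb F q.1 := by
  rw [mem_TT]
  constructor
  · rintro ⟨f, hf, a1, a2, a3, a4⟩
    rw [cnt_zero] at a1 a2
    rw [cnt_one] at a3 a4
    have e1 : (q.2 + f).1 = c.1 := by
      have b1 : (((q.2 + f).1 : ℤ) : ℝ) < ((c.1 + 1 : ℤ) : ℝ) := by push_cast at *; linarith
      have b2 : ((c.1 : ℤ) : ℝ) < (((q.2 + f).1 + 1 : ℤ) : ℝ) := by push_cast at *; linarith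
      have b3 := Int.cast_lt.1 b1
      have b4 := Int.cast_lt.1 b2
      omega
    have e2 : (q.2 + f).2 = c.2 := by
      have b1 : (((q.2 + f).2 : ℤ) : ℝ) < ((c.2 + 1 : ℤ) : ℝ) := by push_cast at *; linarith
      have b2 : ((c.2 : ℤ) : ℝ) < (((q.2 + f).2 + 1 : ℤ) : ℝ) := by push_cast at *; linarith
      have b3 := Int.cast_lt.1 b1
      have b4 := Int.cast_lt.1 b2
      omega
    have e3 : c = q.2 + f := (Prod.ext e1 e2).symm
    have e4 : c - q.2 = f := by rw [e3]; abel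
    rw [e4]
    exact hf
  · intro h
    refine ⟨c - q.2, h, ?_⟩
    have e : q.2 + (c - q.2) = c := by abel
    rw [e]
    refine ⟨?_, ?_, ?_, ?_⟩
    · rw [cnt_zero]; linarith
    · rw [cnt_zero]; linarith
    · rw [cnt_one]; linarith
    · rw [cnt_one]; linarith

private theorem two_sq {m n : ℤ} (h : m ^ 2 + n ^ 2 = 2) : (m = 1 ∨ m = -1) ∧ (n = 1 ∨ n = -1) := by
  have m1 : m ≤ 1 := by nlinarith [sq_nonneg n]
  have m2 : -1 ≤ m := by nlinarith [sq_nonneg n]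
  have n1 : n ≤ 1 := by nlinarith [sq_nonneg m]
  have n2 : -1 ≤ n := by nlinarith [sq_nonneg m]
  interval_cases m <;> interval_cases n <;> simp_all

/-- the linear part is one of the eight isometries -/
private theorem lin_part (K : Eu 2 ≃ₗᵢ[ℝ] Eu 2) {a b : ℤ × ℤ} (ha : K (vec (1, 1)) = vec a)
    (hb : K (vec (1, -1)) = vec b) : ∃ k : Fin 8, ∀ p : ℤ × ℤ, K (vec p) = vec (gb k p) := by
  obtain ⟨m, n⟩ := a
  obtain ⟨m', n'⟩ := b
  have hlin : ∀ p : ℤ × ℤ, K (vec p) = (((p.1 : ℝ) + p.2) / 2) • vec (m, n) +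
      (((p.1 : ℝ) - p.2) / 2) • vec (m', n') := by
    intro p
    have e : vec p = (((p.1 : ℝ) + p.2) / 2) • vec (1, 1) + (((p.1 : ℝ) - p.2) / 2) • vec (1, -1) := by
      apply ext2
      · show (p.1 : ℝ) = ((p.1 : ℝ) + p.2) / 2 * ((1 : ℤ) : ℝ) + ((p.1 : ℝ) - p.2) / 2 * ((1 : ℤ) : ℝ)
        push_cast
        ring
      · show (p.2 : ℝ) = ((p.1 : ℝ) + p.2) / 2 * ((1 : ℤ) : ℝ) + ((p.1 : ℝ) - p.2) / 2 * ((-1 : ℤ) : ℝ)
        push_cast
        ring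
    rw [e, map_add, map_smul, map_smul, ha, hb]
  have hl0 : ∀ p : ℤ × ℤ, K (vec p) 0 = ((p.1 : ℝ) + p.2) / 2 * m + ((p.1 : ℝ) - p.2) / 2 * m' :=
    fun p => by rw [hlin p]; rfl
  have hl1 : ∀ p : ℤ × ℤ, K (vec p) 1 = ((p.1 : ℝ) + p.2) / 2 * n + ((p.1 : ℝ) - p.2) / 2 * n' :=
    fun p => by rw [hlin p]; rfl
  have hn : ∀ p : ℤ × ℤ, (K (vec p) 0) ^ 2 + (K (vec p) 1) ^ 2 = (p.1 : ℝ) ^ 2 + (p.2 : ℝ) ^ 2 := by
    intro p
    rw [← nsq, K.norm_map, nsq]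
    rfl
  have n1 : m ^ 2 + n ^ 2 = 2 := by
    have h := hn (1, 1)
    rw [hl0, hl1] at h
    push_cast at h
    have h2 : (m : ℝ) ^ 2 + (n : ℝ) ^ 2 = 2 := by linarith
    exact_mod_cast h2
  have n2 : m' ^ 2 + n' ^ 2 = 2 := by
    have h := hn (1, -1)
    rw [hl0, hl1] at h
    push_cast at h
    have h2 : (m' : ℝ) ^ 2 + (n' : ℝ) ^ 2 = 2 := by linarith
    exact_mod_cast h2
  have n3 : (m + m') ^ 2 + (n + n') ^ 2 = 4 := by
    have h := hn (2, 0)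
    rw [hl0, hl1] at h
    push_cast at h
    have h2 : ((m : ℝ) + m') ^ 2 + ((n : ℝ) + n') ^ 2 = 4 := by linarith
    exact_mod_cast h2
  have fin : ∀ k : Fin 8, (∀ p : ℤ × ℤ,
      ((p.1 : ℝ) + p.2) / 2 * m + ((p.1 : ℝ) - p.2) / 2 * m' = ((gb k p).1 : ℝ) ∧
      ((p.1 : ℝ) + p.2) / 2 * n + ((p.1 : ℝ) - p.2) / 2 * n' = ((gb k p).2 : ℝ)) →
      ∃ k : Fin 8, ∀ p : ℤ × ℤ, K (vec p) = vec (gb k p) := by
    intro k hk
    refine ⟨k, fun p => ext2 ?_ ?_⟩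
    · rw [hl0, (hk p).1]
      rfl
    · rw [hl1, (hk p).2]
      rfl
  obtain ⟨hm, hn1⟩ := two_sq n1
  obtain ⟨hm', hn1'⟩ := two_sq n2
  clear hlin hl0 hl1 hn ha hb n1 n2
  rcases hm with rfl | rfl <;> rcases hn1 with rfl | rfl <;> rcases hm' with rfl | rfl <;>
    rcases hn1' with rfl | rfl <;>
    first
    | (exfalso; revert n3; norm_num; done)
    | (refine fin 0 fun p => ?_; rw [g0]; constructor <;> push_cast <;> ring1)
    | (refine fin 1 fun p => ?_; rw [g1]; constructor <;> push_cast <;> ring1)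
    | (refine fin 2 fun p => ?_; rw [g2]; constructor <;> push_cast <;> ring1)
    | (refine fin 3 fun p => ?_; rw [g3]; constructor <;> push_cast <;> ring1)
    | (refine fin 4 fun p => ?_; rw [g4]; constructor <;> push_cast <;> ring1)
    | (refine fin 5 fun p => ?_; rw [g5]; constructor <;> push_cast <;> ring1)
    | (refine fin 6 fun p => ?_; rw [g6]; constructor <;> push_cast <;> ring1)
    | (refine fin 7 fun p => ?_; rw [g7]; constructor <;> push_cast <;> ring1)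

/-- two orthonormal vectors in the closed first quadrant -/
private theorem quad {a0 a1 b0 b1 : ℝ} (h1 : 0 ≤ a0) (h2 : 0 ≤ a1) (h3 : 0 ≤ b0) (h4 : 0 ≤ b1)
    (ha : a0 ^ 2 + a1 ^ 2 = 1) (hb : b0 ^ 2 + b1 ^ 2 = 1)
    (hab : (a0 + b0) ^ 2 + (a1 + b1) ^ 2 = 2) :
    (a0 = 1 ∧ a1 = 0 ∧ b0 = 0 ∧ b1 = 1) ∨ (a0 = 0 ∧ a1 = 1 ∧ b0 = 1 ∧ b1 = 0) := by
  have h5 : a0 * b0 + a1 * b1 = 0 := by nlinarith
  have h6 : a0 * b0 = 0 := le_antisymm (by nlinarith [mul_nonneg h2 h4]) (mul_nonneg h1 h3)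
  have h7 : a1 * b1 = 0 := le_antisymm (by nlinarith [mul_nonneg h1 h3]) (mul_nonneg h2 h4)
  rcases mul_eq_zero.1 h6 with h | h
  · right
    have h8 : a1 = 1 := by
      rw [h] at ha
      nlinarith
    have h9 : b1 = 0 := by
      rw [h8, one_mul] at h7
      exact h7
    have h10 : b0 = 1 := by
      rw [h9] at hb
      nlinarith
    exact ⟨h, h8, h10, h9⟩
  · left
    have h8 : b1 = 1 := by
      rw [h] at hb
      nlinarith
    have h9 : a1 = 0 := by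
      rw [h8, mul_one] at h7
      exact h7
    have h10 : a0 = 1 := by
      rw [h9] at ha
      nlinarith
    exact ⟨h10, h9, h, h8⟩

/-- the extreme corner of a tile -/
private theorem corner {F : List (ℤ × ℤ)} {q : Pl} (hne : ∃ c : ℤ × ℤ, c - q.2 ∈ Fb F q.1) :
    ∃ v : ℤ × ℤ, vec v ∈ TT F q ∧
      ∀ x ∈ TT F q, x 0 < (v.1 : ℝ) + 1 → (v.1 : ℝ) ≤ x 0 ∧ (v.2 : ℝ) ≤ x 1 := by
  classical
  obtain ⟨c0, hc0⟩ := hne
  obtain ⟨f, hf, hmin⟩ := Finset.exists_min_image (Fb F q.1).toFinset (fun f => toLex f)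
    ⟨_, List.mem_toFinset.2 hc0⟩
  rw [List.mem_toFinset] at hf
  refine ⟨q.2 + f, ?_, ?_⟩
  · rw [mem_TT]
    refine ⟨f, hf, ?_⟩
    refine ⟨?_, ?_, ?_, ?_⟩
    · rw [vec_zero]
    · rw [vec_zero]; linarith
    · rw [vec_one]
    · rw [vec_one]; linarith
  · intro x hx hlt
    rw [mem_TT] at hx
    obtain ⟨f', hf', a1, a2, a3, a4⟩ := hx
    have h1 := hmin f' (List.mem_toFinset.2 hf')
    rw [Prod.Lex.toLex_le_toLex] at h1
    have b1 : (q.2 + f').1 = q.2.1 + f'.1 := rfl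
    have b2 : (q.2 + f').2 = q.2.2 + f'.2 := rfl
    have b3 : (q.2 + f).1 = q.2.1 + f.1 := rfl
    have b4 : (q.2 + f).2 = q.2.2 + f.2 := rfl
    have h2 : f'.1 < f.1 + 1 := by
      have : (((q.2 + f').1 : ℤ) : ℝ) < (((q.2 + f).1 + 1 : ℤ) : ℝ) := by push_cast at *; linarith
      have := Int.cast_lt.1 this
      omega
    have h3 : f.1 = f'.1 ∧ f.2 ≤ f'.2 := by
      rcases h1 with h1 | h1
      · omega
      · exact h1
    have h4 : (((q.2 + f).1 : ℤ) : ℝ) ≤ (((q.2 + f').1 : ℤ) : ℝ) := by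
      exact_mod_cast (show (q.2 + f).1 ≤ (q.2 + f').1 by omega)
    have h5 : (((q.2 + f).2 : ℤ) : ℝ) ≤ (((q.2 + f').2 : ℤ) : ℝ) := by
      exact_mod_cast (show (q.2 + f).2 ≤ (q.2 + f').2 by omega)
    exact ⟨h4.trans a1, h5.trans a3⟩

/-- an isometry mapping a tile to a tile maps the grid to the grid -/
private theorem grid_isom {F F' : List (ℤ × ℤ)} {q q' : Pl} (hne : ∃ c : ℤ × ℤ, c - q.2 ∈ Fb F q.1)
    (g : Eu 2 ≃ᵢ Eu 2) (K : Eu 2 ≃ₗᵢ[ℝ] Eu 2) (hK : ∀ x v : Eu 2, g (x + v) = g x + K v)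
    (hg : TT F' q' = g '' TT F q) :
    ∃ (k : Fin 8) (z : ℤ × ℤ), ∀ c : ℤ × ℤ, g (cnt c) = cnt (gb k c + z) := by
  obtain ⟨v, hv, hvq⟩ := corner hne
  obtain ⟨y, hy⟩ : ∃ y, y = g (vec v) := ⟨_, rfl⟩
  have hyT : y ∈ TT F' q' := by
    rw [hg, hy]
    exact ⟨_, hv, rfl⟩
  rw [mem_TT] at hyT
  obtain ⟨f, hf, a1, a2, a3, a4⟩ := hyT
  obtain ⟨c, hc⟩ : ∃ c, c = q'.2 + f := ⟨_, rfl⟩
  rw [← hc] at a1 a2 a3 a4
  -- directions into the square are mapped into the quadrant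
  have key : ∀ u : Eu 2, ‖u‖ ^ 2 < 1 → (c.1 : ℝ) ≤ y 0 + u 0 → y 0 + u 0 ≤ c.1 + 1 →
      (c.2 : ℝ) ≤ y 1 + u 1 → y 1 + u 1 ≤ c.2 + 1 → 0 ≤ K.symm u 0 ∧ 0 ≤ K.symm u 1 := by
    intro u hu h1 h2 h3 h4
    have h5 : y + u ∈ TT F' q' := by
      rw [mem_TT]
      refine ⟨f, hf, ?_⟩
      rw [← hc]
      exact ⟨h1, h2, h3, h4⟩
    rw [hg] at h5
    obtain ⟨x, hx, hxe⟩ := h5
    have h6 : x = vec v + K.symm u := by
      apply g.injective
      rw [hxe, hK, K.apply_symm_apply, hy]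
    rw [h6] at hx
    have h7 : (K.symm u 0) ^ 2 + (K.symm u 1) ^ 2 < 1 := by
      rw [← nsq, K.symm.norm_map]
      exact hu
    have h8 : K.symm u 0 < 1 := by nlinarith [sq_nonneg (K.symm u 1)]
    have e0 : (vec v + K.symm u) 0 = (v.1 : ℝ) + K.symm u 0 := rfl
    have e1 : (vec v + K.symm u) 1 = (v.2 : ℝ) + K.symm u 1 := rfl
    have h9 := hvq _ hx (by rw [e0]; linarith)
    rw [e0, e1] at h9
    exact ⟨by linarith [h9.1], by linarith [h9.2]⟩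
  have nE0 : ∀ t : ℝ, ‖t • vec (1, 0)‖ ^ 2 = t ^ 2 := by
    intro t
    rw [nsq]
    show (t * ((1 : ℤ) : ℝ)) ^ 2 + (t * ((0 : ℤ) : ℝ)) ^ 2 = t ^ 2
    push_cast
    ring
  have nE1 : ∀ t : ℝ, ‖t • vec (0, 1)‖ ^ 2 = t ^ 2 := by
    intro t
    rw [nsq]
    show (t * ((0 : ℤ) : ℝ)) ^ 2 + (t * ((1 : ℤ) : ℝ)) ^ 2 = t ^ 2
    push_cast
    ring
  have z00 : ∀ t : ℝ, (t • vec (1, 0)) 0 = t := fun t => by
    show t * ((1 : ℤ) : ℝ) = t
    push_cast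
    ring
  have z01 : ∀ t : ℝ, (t • vec (1, 0)) 1 = 0 := fun t => by
    show t * ((0 : ℤ) : ℝ) = 0
    push_cast
    ring
  have z10 : ∀ t : ℝ, (t • vec (0, 1)) 0 = 0 := fun t => by
    show t * ((0 : ℤ) : ℝ) = 0
    push_cast
    ring
  have z11 : ∀ t : ℝ, (t • vec (0, 1)) 1 = t := fun t => by
    show t * ((1 : ℤ) : ℝ) = t
    push_cast
    ring
  have key0 : ∀ t : ℝ, t ^ 2 < 1 → (c.1 : ℝ) ≤ y 0 + t → y 0 + t ≤ c.1 + 1 →
      0 ≤ t * K.symm (vec (1, 0)) 0 ∧ 0 ≤ t * K.symm (vec (1, 0)) 1 := by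
    intro t ht h1 h2
    have h3 := key (t • vec (1, 0)) (by rw [nE0]; exact ht) (by rw [z00]; exact h1)
      (by rw [z00]; exact h2) (by rw [z01, add_zero]; exact a3) (by rw [z01, add_zero]; exact a4)
    rw [map_smul] at h3
    exact h3
  have key1 : ∀ t : ℝ, t ^ 2 < 1 → (c.2 : ℝ) ≤ y 1 + t → y 1 + t ≤ c.2 + 1 →
      0 ≤ t * K.symm (vec (0, 1)) 0 ∧ 0 ≤ t * K.symm (vec (0, 1)) 1 := by
    intro t ht h1 h2
    have h3 := key (t • vec (0, 1)) (by rw [nE1]; exact ht) (by rw [z10, add_zero]; exact a1)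
      (by rw [z10, add_zero]; exact a2) (by rw [z11]; exact h1) (by rw [z11]; exact h2)
    rw [map_smul] at h3
    exact h3
  obtain ⟨A, hA⟩ : ∃ A, A = K.symm (vec (1, 0)) := ⟨_, rfl⟩
  obtain ⟨B, hB⟩ : ∃ B, B = K.symm (vec (0, 1)) := ⟨_, rfl⟩
  rw [← hA] at key0
  rw [← hB] at key1
  have nA : A 0 ^ 2 + A 1 ^ 2 = 1 := by
    rw [← nsq, hA, K.symm.norm_map]
    have := nE0 1
    rw [one_smul, one_pow] at this
    exact this
  have nB : B 0 ^ 2 + B 1 ^ 2 = 1 := by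
    rw [← nsq, hB, K.symm.norm_map]
    have := nE1 1
    rw [one_smul, one_pow] at this
    exact this
  have nAB : ∀ s t : ℝ, (s * A 0 + t * B 0) ^ 2 + (s * A 1 + t * B 1) ^ 2 = s ^ 2 + t ^ 2 := by
    intro s t
    have h1 : s • A + t • B = K.symm (s • vec (1, 0) + t • vec (0, 1)) := by
      rw [map_add, map_smul, map_smul, hA, hB]
    have h2 : ‖s • A + t • B‖ ^ 2 = ‖s • vec (1, 0) + t • vec (0, 1)‖ ^ 2 := by
      rw [h1, K.symm.norm_map]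
    rw [nsq, nsq] at h2
    have h3 : (s • vec (1, 0) + t • vec (0, 1)) 0 = s := by
      show (s • vec (1, 0)) 0 + (t • vec (0, 1)) 0 = s
      rw [z00, z10, add_zero]
    have h4 : (s • vec (1, 0) + t • vec (0, 1)) 1 = t := by
      show (s • vec (1, 0)) 1 + (t • vec (0, 1)) 1 = t
      rw [z01, z11, zero_add]
    rw [h3, h4] at h2
    exact h2
  -- the image of the corner is a vertex
  have hy0 : ∃ m : ℤ, y 0 = m := by
    by_contra hno
    have h1 : (c.1 : ℝ) < y 0 := lt_of_le_of_ne a1 fun h => hno ⟨c.1, h.symm⟩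
    have h2 : y 0 < c.1 + 1 := lt_of_le_of_ne a2 fun h => hno ⟨c.1 + 1, by rw [h]; push_cast; rfl⟩
    obtain ⟨t, ht0, ht1, ht2⟩ : ∃ t : ℝ, 0 < t ∧ (c.1 : ℝ) ≤ y 0 - t ∧ y 0 + t ≤ c.1 + 1 :=
      ⟨min (y 0 - c.1) (c.1 + 1 - y 0), lt_min (by linarith) (by linarith),
        by linarith [min_le_left (y 0 - c.1) (c.1 + 1 - y 0)],
        by linarith [min_le_right (y 0 - c.1) (c.1 + 1 - y 0)]⟩
    have ht3 : t ^ 2 < 1 := by nlinarith
    have h3 := key0 t ht3 (by linarith) ht2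
    have h4 := key0 (-t) (by rw [neg_sq]; exact ht3) (by linarith) (by linarith)
    have h5 : A 0 = 0 := by nlinarith [h3.1, h4.1]
    have h6 : A 1 = 0 := by nlinarith [h3.2, h4.2]
    rw [h5, h6] at nA
    norm_num at nA
  have hy1 : ∃ m : ℤ, y 1 = m := by
    by_contra hno
    have h1 : (c.2 : ℝ) < y 1 := lt_of_le_of_ne a3 fun h => hno ⟨c.2, h.symm⟩
    have h2 : y 1 < c.2 + 1 := lt_of_le_of_ne a4 fun h => hno ⟨c.2 + 1, by rw [h]; push_cast; rfl⟩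
    obtain ⟨t, ht0, ht1, ht2⟩ : ∃ t : ℝ, 0 < t ∧ (c.2 : ℝ) ≤ y 1 - t ∧ y 1 + t ≤ c.2 + 1 :=
      ⟨min (y 1 - c.2) (c.2 + 1 - y 1), lt_min (by linarith) (by linarith),
        by linarith [min_le_left (y 1 - c.2) (c.2 + 1 - y 1)],
        by linarith [min_le_right (y 1 - c.2) (c.2 + 1 - y 1)]⟩
    have ht3 : t ^ 2 < 1 := by nlinarith
    have h3 := key1 t ht3 (by linarith) ht2
    have h4 := key1 (-t) (by rw [neg_sq]; exact ht3) (by linarith) (by linarith)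
    have h5 : B 0 = 0 := by nlinarith [h3.1, h4.1]
    have h6 : B 1 = 0 := by nlinarith [h3.2, h4.2]
    rw [h5, h6] at nB
    norm_num at nB
  obtain ⟨m0, hm0⟩ := hy0
  obtain ⟨m1, hm1⟩ := hy1
  have hyv : y = vec (m0, m1) := ext2 hm0 hm1
  -- the linear part
  obtain ⟨s, hs, hs0⟩ : ∃ s : ℤ, (s = 1 ∨ s = -1) ∧ 0 ≤ (s : ℝ) * A 0 ∧ 0 ≤ (s : ℝ) * A 1 := by
    rcases le_total (y 0) (c.1 + 1 / 2) with h | h
    · have h1 := key0 (1 / 2) (by norm_num) (by linarith) (by linarith)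
      refine ⟨1, Or.inl rfl, ?_, ?_⟩ <;> push_cast <;> linarith [h1.1, h1.2]
    · have h1 := key0 (-(1 / 2)) (by norm_num) (by linarith) (by linarith)
      refine ⟨-1, Or.inr rfl, ?_, ?_⟩ <;> push_cast <;> linarith [h1.1, h1.2]
  obtain ⟨t, ht, ht0⟩ : ∃ t : ℤ, (t = 1 ∨ t = -1) ∧ 0 ≤ (t : ℝ) * B 0 ∧ 0 ≤ (t : ℝ) * B 1 := by
    rcases le_total (y 1) (c.2 + 1 / 2) with h | h
    · have h1 := key1 (1 / 2) (by norm_num) (by linarith) (by linarith)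
      refine ⟨1, Or.inl rfl, ?_, ?_⟩ <;> push_cast <;> linarith [h1.1, h1.2]
    · have h1 := key1 (-(1 / 2)) (by norm_num) (by linarith) (by linarith)
      refine ⟨-1, Or.inr rfl, ?_, ?_⟩ <;> push_cast <;> linarith [h1.1, h1.2]
  have hs2 : (s : ℝ) ^ 2 = 1 := by
    rcases hs with rfl | rfl <;> norm_num
  have ht2 : (t : ℝ) ^ 2 = 1 := by
    rcases ht with rfl | rfl <;> norm_num
  have hq := quad hs0.1 hs0.2 ht0.1 ht0.2 (by
    have := nAB s 0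
    rw [hs2] at this
    nlinarith [this]) (by
    have := nAB 0 t
    rw [ht2] at this
    nlinarith [this]) (by
    have := nAB s t
    rw [hs2, ht2] at this
    linarith [this])
  have kA : K A = vec (1, 0) := by rw [hA, K.apply_symm_apply]
  have kB : K B = vec (0, 1) := by rw [hB, K.apply_symm_apply]
  have hK1 : ∃ a b : ℤ × ℤ, K (vec (1, 1)) = vec a ∧ K (vec (1, -1)) = vec b := by
    rcases hq with ⟨q1, q2, q3, q4⟩ | ⟨q1, q2, q3, q4⟩
    · -- `s A = e_0`, `t B = e_1`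
      have e1 : (s : ℝ) • A = vec (1, 0) := ext2 (by
        show (s : ℝ) * A 0 = ((1 : ℤ) : ℝ)
        rw [q1]; norm_num) (by
        show (s : ℝ) * A 1 = ((0 : ℤ) : ℝ)
        rw [q2]; norm_num)
      have e2 : (t : ℝ) • B = vec (0, 1) := ext2 (by
        show (t : ℝ) * B 0 = ((0 : ℤ) : ℝ)
        rw [q3]; norm_num) (by
        show (t : ℝ) * B 1 = ((1 : ℤ) : ℝ)
        rw [q4]; norm_num)
      have d1 : vec (1, 1) = vec (1, 0) + vec (0, 1) := by rw [← vec_add]; rfl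
      have d2 : vec (1, -1) = vec (1, 0) - vec (0, 1) := ext2 (by
        show ((1 : ℤ) : ℝ) = ((1 : ℤ) : ℝ) - ((0 : ℤ) : ℝ)
        push_cast; ring) (by
        show ((-1 : ℤ) : ℝ) = ((0 : ℤ) : ℝ) - ((1 : ℤ) : ℝ)
        push_cast; ring)
      have w1 : K (vec (1, 0)) = (s : ℝ) • vec (1, 0) := by
        conv_lhs => rw [← e1]
        rw [map_smul, kA]
      have w2 : K (vec (0, 1)) = (t : ℝ) • vec (0, 1) := by
        conv_lhs => rw [← e2]
        rw [map_smul, kB]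
      refine ⟨(s, t), (s, -t), ?_, ?_⟩
      · rw [d1, map_add, w1, w2]
        apply ext2
        · show (s : ℝ) * ((1 : ℤ) : ℝ) + (t : ℝ) * ((0 : ℤ) : ℝ) = (s : ℝ)
          push_cast; ring
        · show (s : ℝ) * ((0 : ℤ) : ℝ) + (t : ℝ) * ((1 : ℤ) : ℝ) = (t : ℝ)
          push_cast; ring
      · rw [d2, map_sub, w1, w2]
        apply ext2
        · show (s : ℝ) * ((1 : ℤ) : ℝ) - (t : ℝ) * ((0 : ℤ) : ℝ) = (s : ℝ)
          push_cast; ring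
        · show (s : ℝ) * ((0 : ℤ) : ℝ) - (t : ℝ) * ((1 : ℤ) : ℝ) = ((-t : ℤ) : ℝ)
          push_cast; ring
    · -- `s A = e_1`, `t B = e_0`
      have e1 : (s : ℝ) • A = vec (0, 1) := ext2 (by
        show (s : ℝ) * A 0 = ((0 : ℤ) : ℝ)
        rw [q1]; norm_num) (by
        show (s : ℝ) * A 1 = ((1 : ℤ) : ℝ)
        rw [q2]; norm_num)
      have e2 : (t : ℝ) • B = vec (1, 0) := ext2 (by
        show (t : ℝ) * B 0 = ((1 : ℤ) : ℝ)
        rw [q3]; norm_num) (by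
        show (t : ℝ) * B 1 = ((0 : ℤ) : ℝ)
        rw [q4]; norm_num)
      have d1 : vec (1, 1) = vec (1, 0) + vec (0, 1) := by rw [← vec_add]; rfl
      have d2 : vec (1, -1) = vec (1, 0) - vec (0, 1) := ext2 (by
        show ((1 : ℤ) : ℝ) = ((1 : ℤ) : ℝ) - ((0 : ℤ) : ℝ)
        push_cast; ring) (by
        show ((-1 : ℤ) : ℝ) = ((0 : ℤ) : ℝ) - ((1 : ℤ) : ℝ)
        push_cast; ring)
      have w1 : K (vec (0, 1)) = (s : ℝ) • vec (1, 0) := by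
        conv_lhs => rw [← e1]
        rw [map_smul, kA]
      have w2 : K (vec (1, 0)) = (t : ℝ) • vec (0, 1) := by
        conv_lhs => rw [← e2]
        rw [map_smul, kB]
      refine ⟨(s, t), (-s, t), ?_, ?_⟩
      · rw [d1, map_add, w1, w2]
        apply ext2
        · show (t : ℝ) * ((0 : ℤ) : ℝ) + (s : ℝ) * ((1 : ℤ) : ℝ) = (s : ℝ)
          push_cast; ring
        · show (t : ℝ) * ((1 : ℤ) : ℝ) + (s : ℝ) * ((0 : ℤ) : ℝ) = (t : ℝ)
          push_cast; ring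
      · rw [d2, map_sub, w1, w2]
        apply ext2
        · show (t : ℝ) * ((0 : ℤ) : ℝ) - (s : ℝ) * ((1 : ℤ) : ℝ) = ((-s : ℤ) : ℝ)
          push_cast; ring
        · show (t : ℝ) * ((1 : ℤ) : ℝ) - (s : ℝ) * ((0 : ℤ) : ℝ) = (t : ℝ)
          push_cast; ring
  obtain ⟨a, b, ha, hb⟩ := hK1
  obtain ⟨k, hk⟩ := lin_part K ha hb
  obtain ⟨w, hw⟩ : ∃ w : ℤ × ℤ, gb k (1, 1) = (1, 1) + (w + w) := ⟨_, half_dec k⟩
  obtain ⟨z, hz⟩ : ∃ z, z = (m0, m1) - gb k v + w := ⟨_, rfl⟩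
  refine ⟨k, z, fun c' => ?_⟩
  have e1 : cnt c' = vec v + (vec (c' - v) + (1 / 2 : ℝ) • vec (1, 1)) := by
    rw [cnt_eq, ← add_assoc, ← vec_add]
    congr 2
    abel
  have e2 : gb k c' = gb k v + gb k (c' - v) := by
    rw [← gb_add]
    congr 1
    abel
  rw [e1, hK, ← hy, map_add, map_smul, hk, hk, hw, hyv, cnt_eq, vec_add (1, 1), vec_add w w,
    smul_add]
  have e3 : gb k c' + z = (m0, m1) + gb k (c' - v) + w := by
    rw [e2, hz]
    abel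
  rw [e3, vec_add, vec_add]
  have e4 : (1 / 2 : ℝ) • (vec w + vec w) = vec w := by
    rw [← two_smul ℝ (vec w), smul_smul]
    norm_num
  rw [e4]
  abel

theorem disc_of_isom (F : List (ℤ × ℤ)) (_ : F ≠ []) (hA : Asym F) {P P' : Set Pl}
    (h : Tiling F P) (_ : Tiling F P') (g : Eu 2 ≃ᵢ Eu 2)
    (hg : realize F P' = (fun A => g '' A) '' realize F P) :
    ∃ (k : Fin 8) (z : ℤ × ℤ), P' = act k z '' P := by
  have hex : ∀ q ∈ P, ∃ q' ∈ P', TT F q' = g '' TT F q := by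
    intro q hq
    have h1 : g '' TT F q ∈ realize F P' := by
      rw [hg]
      exact ⟨TT F q, ⟨q, hq, rfl⟩, rfl⟩
    obtain ⟨q', h2, hq'⟩ := h1
    exact ⟨q', h2, hq'⟩
  obtain ⟨q0, ⟨hq0, hq0c⟩, _⟩ := h (0, 0)
  obtain ⟨q0', _, hq0'⟩ := hex q0 hq0
  obtain ⟨K, hK⟩ : ∃ K : Eu 2 ≃ₗᵢ[ℝ] Eu 2, ∀ x v : Eu 2, g (x + v) = g x + K v :=
    ⟨_, fun x v => isom_add g x v⟩
  obtain ⟨k, z, hcnt⟩ := grid_isom ⟨(0, 0), hq0c⟩ g K hK hq0'
  have hact : ∀ q q' : Pl, TT F q' = g '' TT F q → q' = act k z q := by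
    intro q q' hqq
    have h8 : ∃ k' : Fin 8, mul k k' = 0 := by
      have : ∀ k : Fin 8, ∃ k' : Fin 8, mul k k' = 0 := by decide +kernel
      exact this k
    obtain ⟨k', hk'⟩ := h8
    have h1 : q'.1 = mul k q.1 ∧ q'.2 = gb k q.2 + z := by
      apply hA
      intro c
      -- `c = gb k d + z`
      obtain ⟨d, hd⟩ : ∃ d, d = gb k' (c - z) := ⟨_, rfl⟩
      have hcd : c = gb k d + z := by
        rw [hd, ← gb_mul, hk', g0]
        show c = (c - z) + z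
        abel
      have h2 : c - q'.2 ∈ Fb F q'.1 ↔ d - q.2 ∈ Fb F q.1 := by
        rw [← cnt_mem, ← cnt_mem, hcd, ← hcnt, hqq]
        exact g.injective.mem_set_image
      rw [h2, Fb_mul]
      have e : c - (gb k q.2 + z) = gb k (d - q.2) := by
        have e1 : gb k d = gb k (d - q.2) + gb k q.2 := by
          rw [← gb_add]
          congr 1
          abel
        rw [hcd, e1]
        abel
      rw [e]
      constructor
      · intro h3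
        exact List.mem_map.2 ⟨_, h3, rfl⟩
      · intro h3
        obtain ⟨f, hf, he⟩ := List.mem_map.1 h3
        rw [← gb_inj k he]
        exact hf
    exact Prod.ext h1.1 h1.2
  refine ⟨k, z, ?_⟩
  ext q'
  constructor
  · intro hq'
    have h1 : TT F q' ∈ (fun A => g '' A) '' realize F P := by
      rw [← hg]
      exact ⟨q', hq', rfl⟩
    obtain ⟨_, ⟨q, hq, rfl⟩, he⟩ := h1
    exact ⟨q, hq, (hact q q' he.symm).symm⟩
  · rintro ⟨q, hq, rfl⟩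
    obtain ⟨q', hq', he⟩ := hex q hq
    rw [← hact q q' he]
    exact hq'

end AlefG
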