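import Pool.Agent.AlefG.RealDisc
import Pool.Agent.AlefG.Isom
import Pool.Agent.AlefG.Align
import Pool.Agent.DiskPoly.Disk

/-!
# From a discrete classification to the frozen statement
-/

set_option autoImplicit false

namespace AlefG

open TilDich
open AlefS (rt gb mul Pl act sq Mono)

variable (F : List (ℤ × ℤ))

/-- two families of sets in the plane are congruent -/
def Congr (𝒯 𝒯' : Set (Set (Eu 2))) : Prop := ∃ g : Eu 2 ≃ᵢ Eu 2, 𝒯' = (fun A => g '' A) '' 𝒯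

theorem image_trans (g h : Eu 2 ≃ᵢ Eu 2) (𝒯 : Set (Set (Eu 2))) :
    (fun A => h '' A) '' ((fun A => g '' A) '' 𝒯) = (fun A => (g.trans h) '' A) '' 𝒯 := by
  rw [Set.image_image]
  refine Set.image_congr fun A _ => ?_
  rw [Set.image_image]
  rfl

theorem image_refl (𝒯 : Set (Set (Eu 2))) :
    (fun A => (IsometryEquiv.refl (Eu 2)) '' A) '' 𝒯 = 𝒯 := by
  have : (fun A : Set (Eu 2) => (IsometryEquiv.refl (Eu 2)) '' A) = id := by
    funext A
    ext x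
    constructor
    · rintro ⟨y, hy, rfl⟩
      exact hy
    · intro hx
      exact ⟨x, hx, rfl⟩
  rw [this, Set.image_id]

theorem congr_refl (𝒯 : Set (Set (Eu 2))) : Congr 𝒯 𝒯 := ⟨IsometryEquiv.refl _, (image_refl 𝒯).symm⟩

theorem congr_symm {𝒯 𝒯' : Set (Set (Eu 2))} (h : Congr 𝒯 𝒯') : Congr 𝒯' 𝒯 := by
  obtain ⟨g, rfl⟩ := h
  refine ⟨g.symm, ?_⟩
  have h1 : g.trans g.symm = IsometryEquiv.refl (Eu 2) := by
    ext1 x
    simp [IsometryEquiv.refl]
  rw [image_trans, h1, image_refl]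

theorem congr_trans {𝒯 𝒯' 𝒯'' : Set (Set (Eu 2))} (h : Congr 𝒯 𝒯') (h' : Congr 𝒯' 𝒯'') :
    Congr 𝒯 𝒯'' := by
  obtain ⟨g, rfl⟩ := h
  obtain ⟨g', rfl⟩ := h'
  exact ⟨g.trans g', image_trans g g' 𝒯⟩

/-- the exact covers up to congruence of their realizations -/
def congSetoid : Setoid {P : Set Pl // Tiling F P} where
  r P P' := Congr (realize F P.1) (realize F P'.1)
  iseqv := ⟨fun _ => congr_refl _, fun h => congr_symm h, fun h h' => congr_trans h h'⟩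

theorem main (hF : F ≠ []) (hA : Asym F) (hE : EdgeOK F)
    (hcnt : {P : Set Pl | Tiling F P}.Countable)
    (hinf : ∃ P : ℕ → Set Pl, (∀ n, Tiling F (P n)) ∧
      ∀ m n, m ≠ n → ¬ ∃ (k : Fin 8) (z : ℤ × ℤ), P n = act k z '' P m) :
    ∃ f : ℕ → Set (Set (Eu 2)), (∀ n, Mono (T0 F) (f n)) ∧
    (∀ m n : ℕ, m ≠ n → ¬ ∃ g : Eu 2 ≃ᵢ Eu 2, f n = (fun A => g '' A) '' f m) ∧
    (∀ 𝒯, Mono (T0 F) 𝒯 → ∃ (n : ℕ) (g : Eu 2 ≃ᵢ Eu 2), 𝒯 = (fun A => g '' A) '' f n) := by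
  classical
  have : Countable {P : Set Pl // Tiling F P} := hcnt.to_subtype
  have : Countable (Quotient (congSetoid F)) := inferInstance
  obtain ⟨P, hP, hne⟩ := hinf
  have : Infinite (Quotient (congSetoid F)) := by
    refine Infinite.of_injective (fun n : ℕ => (Quotient.mk (congSetoid F) ⟨P n, hP n⟩)) ?_
    intro m n hmn
    by_contra h
    have h1 : Congr (realize F (P m)) (realize F (P n)) := Quotient.exact hmn
    obtain ⟨g, hg⟩ := h1
    exact hne m n h (disc_of_isom F hF hA (hP m) (hP n) g hg)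
  obtain ⟨hd⟩ := nonempty_denumerable (Quotient (congSetoid F))
  let e : ℕ ≃ Quotient (congSetoid F) := (Denumerable.eqv (Quotient (congSetoid F))).symm
  refine ⟨fun n => realize F (e n).out.1, fun n => real_of_disc F hF (e n).out.2, ?_, ?_⟩
  · rintro m n hmn ⟨g, hg⟩
    apply hmn
    apply e.injective
    rw [← Quotient.out_eq (e m), ← Quotient.out_eq (e n)]
    exact Quotient.sound (s := congSetoid F) ⟨g, hg⟩
  · intro 𝒯 h
    obtain ⟨g, P, hP, hg⟩ := disc_of_real F hF hA hE h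
    let q : Quotient (congSetoid F) := Quotient.mk (congSetoid F) ⟨P, hP⟩
    refine ⟨e.symm q, ?_⟩
    have h1 : (congSetoid F).r (e (e.symm q)).out ⟨P, hP⟩ := by
      apply Quotient.exact (s := congSetoid F)
      rw [Quotient.out_eq, Equiv.apply_symm_apply]
    have h2 : Congr 𝒯 (realize F P) := ⟨g, hg.symm⟩
    obtain ⟨g', hg'⟩ := congr_trans h1 (congr_symm h2)
    exact ⟨g', hg'⟩

/-- the prototile as union of the squares of the list -/
theorem mem_T0 (x : Eu 2) : x ∈ T0 F ↔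
    ∃ c ∈ F, (c.1 : ℝ) ≤ x 0 ∧ x 0 ≤ c.1 + 1 ∧ (c.2 : ℝ) ≤ x 1 ∧ x 1 ≤ c.2 + 1 := by
  have hg : ∀ p : ℤ × ℤ, gb 0 p = p := fun _ => rfl
  have e : ∀ f : ℤ × ℤ, ((0, 0) : ℤ × ℤ) + f = f := fun f => by ext <;> simp
  simp only [T0, TT, Fb, List.mem_map, hg, exists_eq_right, Set.mem_iUnion, exists_prop, e]
  rfl

/-- the frozen statement from a discrete classification -/
theorem frozen (l : List ((ℤ × ℤ) × ℕ)) (hchk : DiskPoly.chk l = true)
    (hF : l.map Prod.fst ≠ []) (hA : Asym (l.map Prod.fst)) (hE : EdgeOK (l.map Prod.fst))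
    (hcnt : {P : Set Pl | Tiling (l.map Prod.fst) P}.Countable)
    (hinf : ∃ P : ℕ → Set Pl, (∀ n, Tiling (l.map Prod.fst) (P n)) ∧
      ∀ m n, m ≠ n → ¬ ∃ (k : Fin 8) (z : ℤ × ℤ), P n = act k z '' P m) :
    ∃ T : Set (EuclideanSpace ℝ (Fin 2)),
      Nonempty (T ≃ₜ Metric.closedBall (0 : EuclideanSpace ℝ (Fin 2)) 1) ∧
      ∃ f : ℕ → Set (Set (EuclideanSpace ℝ (Fin 2))),
        (∀ n : ℕ,
          (∀ A ∈ f n, ∃ e : EuclideanSpace ℝ (Fin 2) ≃ᵢ EuclideanSpace ℝ (Fin 2), A = e '' T) ∧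
          ⋃₀ (f n) = Set.univ ∧
          (f n).Pairwise (fun A B => Disjoint (interior A) (interior B))) ∧
        (∀ m n : ℕ, m ≠ n →
          ¬ ∃ g : EuclideanSpace ℝ (Fin 2) ≃ᵢ EuclideanSpace ℝ (Fin 2),
              f n = (fun A => g '' A) '' f m) ∧
        (∀ 𝒯 : Set (Set (EuclideanSpace ℝ (Fin 2))),
          ((∀ A ∈ 𝒯, ∃ e : EuclideanSpace ℝ (Fin 2) ≃ᵢ EuclideanSpace ℝ (Fin 2), A = e '' T) ∧
            ⋃₀ 𝒯 = Set.univ ∧
            𝒯.Pairwise (fun A B => Disjoint (interior A) (interior B))) →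
          ∃ n : ℕ, ∃ g : EuclideanSpace ℝ (Fin 2) ≃ᵢ EuclideanSpace ℝ (Fin 2),
            𝒯 = (fun A => g '' A) '' f n) :=
  ⟨T0 (l.map Prod.fst), DiskPoly.disk_of_chk l hchk _ (mem_T0 (l.map Prod.fst)),
    main (l.map Prod.fst) hF hA hE hcnt hinf⟩

end AlefG
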