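import Pool.Agent.AlefG.Defs
import Pool.Agent.AlefS.RealDisc

/-!
# Exact covers give monohedral tilings
-/

set_option autoImplicit false

namespace AlefG

open TilDich
open AlefS (rt gb mul Pl act sq Mono exists_isom_sq rd_regular)

variable (F : List (ℤ × ℤ))

theorem Fb_zero : Fb F 0 = F := by
  have h : gb 0 = id := by
    funext p
    rfl
  rw [Fb, h, List.map_id]

/-- every placement is an isometric image of the prototile -/
theorem exists_isom_TT (q : Pl) : ∃ e : Eu 2 ≃ᵢ Eu 2, TT F q = e '' T0 F := by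
  obtain ⟨e, he⟩ := exists_isom_sq q.1 q.2
  refine ⟨e, ?_⟩
  have hid : Fb F 0 = F := Fb_zero F
  ext x
  simp only [T0, TT, Set.image_iUnion, Set.mem_iUnion, he, hid]
  constructor
  · rintro ⟨f, hf, hx⟩
    rw [Fb, List.mem_map] at hf
    obtain ⟨f0, hf0, rfl⟩ := hf
    refine ⟨f0, hf0, ?_⟩
    have e1 : ((0, 0) : ℤ × ℤ) + f0 = f0 := zero_add f0
    rw [e1, add_comm]
    exact hx
  · rintro ⟨f0, hf0, hx⟩
    refine ⟨gb q.1 f0, ?_, ?_⟩
    · rw [Fb, List.mem_map]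
      exact ⟨f0, hf0, rfl⟩
    · have e1 : ((0, 0) : ℤ × ℤ) + f0 = f0 := zero_add f0
      rw [e1, add_comm] at hx
      exact hx

/-- cells and points of a tile -/
theorem rd_mem_TT {q : Pl} {x : Eu 2} : x ∈ TT F q ↔ ∃ c : ℤ × ℤ, c - q.2 ∈ Fb F q.1 ∧ x ∈ sq c := by
  simp only [TT, Set.mem_iUnion]
  constructor
  · rintro ⟨f, hf, hx⟩
    exact ⟨q.2 + f, by rwa [add_sub_cancel_left], hx⟩
  · rintro ⟨c, hc, hx⟩
    exact ⟨c - q.2, hc, by rwa [add_sub_cancel]⟩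

theorem real_of_disc (_ : F ≠ []) {P : Set Pl} (h : Tiling F P) :
    Mono (T0 F) (realize F P) := by
  refine ⟨?_, ?_, ?_⟩
  · rintro _ ⟨q, _, rfl⟩
    exact exists_isom_TT F q
  · rw [Set.eq_univ_iff_forall]
    intro x
    obtain ⟨q, ⟨hq, hcq⟩, _⟩ := h (⌊x 0⌋, ⌊x 1⌋)
    refine ⟨TT F q, ⟨q, hq, rfl⟩, (rd_mem_TT F).2 ⟨_, hcq, ?_⟩⟩
    exact ⟨Int.floor_le _, (Int.lt_floor_add_one _).le, Int.floor_le _,
      (Int.lt_floor_add_one _).le⟩
  · rintro _ ⟨q, hq, rfl⟩ _ ⟨q', hq', rfl⟩ hne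
    rw [Set.disjoint_left]
    intro x hx hx'
    obtain ⟨c, hc, hxc⟩ := (rd_mem_TT F).1 (interior_subset hx)
    obtain ⟨y, hy', y1, y2, y3, y4⟩ := rd_regular hxc isOpen_interior hx'
    obtain ⟨c', hc', z1, z2, z3, z4⟩ := (rd_mem_TT F).1 (interior_subset hy')
    have hcc : c = c' := by
      have a1 : c.1 < c'.1 + 1 := by
        have : (c.1 : ℝ) < (c'.1 : ℝ) + 1 := y1.trans_le z2
        exact_mod_cast this
      have a2 : c'.1 < c.1 + 1 := by
        have : (c'.1 : ℝ) < (c.1 : ℝ) + 1 := z1.trans_lt y2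
        exact_mod_cast this
      have a3 : c.2 < c'.2 + 1 := by
        have : (c.2 : ℝ) < (c'.2 : ℝ) + 1 := y3.trans_le z4
        exact_mod_cast this
      have a4 : c'.2 < c.2 + 1 := by
        have : (c'.2 : ℝ) < (c.2 : ℝ) + 1 := z3.trans_lt y4
        exact_mod_cast this
      ext
      · omega
      · omega
    subst hcc
    apply hne
    obtain ⟨r, _, hu⟩ := h c
    rw [hu q ⟨hq, hc⟩, hu q' ⟨hq', hc'⟩]

end AlefG
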