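import Pool.Agent.AlefG.Defs
import Pool.Agent.AlefS.Edge

set_option autoImplicit false

namespace AlefG

open TilDich
open AlefS (rt gb mul Pl act sq Mono co)

variable (F : List (ℤ × ℤ))

/-- discrete condition: no straight boundary -/
def EdgeOK : Prop := ∀ (d : Fin 4) (Q : Set Pl) (z : ℤ × ℤ),
    (∀ q ∈ Q, ∀ q' ∈ Q, ∀ c : ℤ × ℤ, c - q.2 ∈ Fb F q.1 → c - q'.2 ∈ Fb F q'.1 → q = q') →
    (∀ c : ℤ × ℤ, co d (c - z) = 0 → ∃ q ∈ Q, c - q.2 ∈ Fb F q.1) →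
    (∀ q ∈ Q, ∀ c : ℤ × ℤ, c - q.2 ∈ Fb F q.1 → co d (c - z) ≠ 1) → False

/-! (G1) -/
theorem real_of_disc (hF : F ≠ []) {P : Set Pl} (h : Tiling F P) : Mono (T0 F) (realize F P) := sorry

/-! (G2) -/
theorem disc_of_isom (hF : F ≠ []) (hA : Asym F) {P P' : Set Pl} (h : Tiling F P)
    (h' : Tiling F P') (g : Eu 2 ≃ᵢ Eu 2)
    (hg : realize F P' = (fun A => g '' A) '' realize F P) :
    ∃ (k : Fin 8) (z : ℤ × ℤ), P' = act k z '' P := sorry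

/-! (G3) -/
theorem disc_of_real (hF : F ≠ []) (hA : Asym F) (hE : EdgeOK F) {𝒯 : Set (Set (Eu 2))}
    (h : Mono (T0 F) 𝒯) :
    ∃ (g : Eu 2 ≃ᵢ Eu 2) (P : Set Pl), Tiling F P ∧ (fun A => g '' A) '' 𝒯 = realize F P := sorry

end AlefG
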